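import Pool.Agent.CUG.FINB

/-!
# Partition universal graphs without `K_{s,s'}`, for every maximum degree at least three

For all `r ≥ 2` and `Δ ≥ 3` there is a constant `C` such that for every `n ≥ 1` there is a graph `G` on at
most `C n` vertices which contains no `K_{s,s'}` with `s s' > (Δ - 1) (s + s' - 2) + 1` and such that every
`r`-colouring of the edges of `G` has a colour class containing every graph on `n` vertices of maximum
degree at most `Δ`.

For `Δ = 3` this makes `G` free of `K_{3,4}`, hence of `K_{4,4}` (the case `Δ = 3` of the question). For every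
`Δ ≥ 3` it makes `G` free of `K_{2Δ-2,2Δ-2}` and of `K_{Δ,Δ²-3Δ+4}`.
-/

namespace Pool.Agent.Results.MP_e72c4a_co.AllDelta

theorem result :
    ∀ r Δ : ℕ, 2 ≤ r → 3 ≤ Δ →
      ∃ C : ℕ, ∀ n : ℕ, 1 ≤ n →
        ∃ N : ℕ, N ≤ C * n ∧
          ∃ G : SimpleGraph (Fin N),
            (∀ s s' : ℕ, (Δ - 1) * (s + s' - 2) + 1 < s * s' →
              ¬ (completeBipartiteGraph (Fin s) (Fin s')).IsContained G) ∧
            ∀ χ : Sym2 (Fin N) → Fin r, ∃ c : Fin r,
              ∀ H : SimpleGraph (Fin n),
                (∀ v : Fin n, (H.neighborSet v).ncard ≤ Δ) →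
                  H.IsContained (SimpleGraph.fromEdgeSet {e | e ∈ G.edgeSet ∧ χ e = c}) :=
  fun r Δ hr hΔ => Pool.Agent.CUG.final Δ hΔ r (by omega)

end Pool.Agent.Results.MP_e72c4a_co.AllDelta
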