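import Pool.Agent.PUG.FIN

/-!
# `K_{3,3}`-free partition universal graphs for maximum degree two

For every number of colours `r` there is a constant `C` such that for every `n ≥ 1` there is a
`K_{3,3}`-free graph `G` on at most `C n` vertices such that every `r`-colouring of the edges of `G` has a
colour class containing every graph on `n` vertices of maximum degree at most two. This is the case
`Δ = 2` (all `r`) of the question.
-/

namespace Pool.Agent.Results.MP_e72c4a_co.DeltaTwo

theorem result :
    ∀ r : ℕ, 2 ≤ r →
      ∃ C : ℕ, ∀ n : ℕ, 1 ≤ n →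
        ∃ N : ℕ, N ≤ C * n ∧
          ∃ G : SimpleGraph (Fin N),
            ¬ (completeBipartiteGraph (Fin (2 + 1)) (Fin (2 + 1))).IsContained G ∧
            ∀ χ : Sym2 (Fin N) → Fin r, ∃ c : Fin r,
              ∀ H : SimpleGraph (Fin n),
                (∀ v : Fin n, (H.neighborSet v).ncard ≤ 2) →
                  H.IsContained (SimpleGraph.fromEdgeSet {e | e ∈ G.edgeSet ∧ χ e = c}) :=
  fun r hr => Pool.Agent.PUG.final r (by omega)

end Pool.Agent.Results.MP_e72c4a_co.DeltaTwo
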